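import Pool.Agent.K1H66.FB.Hier

/-!
# The ideal of bounded subfamilies of a point-finite Borel-additive family
-/

set_option autoImplicit false

open Set Cardinal Ordinal

namespace Pool.Agent.K1H66.FB

universe u v w

/-- union of the members with index in `D` -/
def U {X : Type u} {ι : Type v} (F : ι → Set X) (D : Set ι) : Set X := ⋃ i ∈ D, F i

/-- the countable ordinals -/
abbrev W1 : Type 1 := {α : Ordinal.{0} // α < (Cardinal.aleph 1).ord}

/-- `D` is good when the family restricted to `D` is additive of some fixed class -/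
def Good {X : Type u} {ι : Type v} (S : Ordinal.{0} → Set (Set X)) (F : ι → Set X) (D : Set ι) :
    Prop := Bd S {A | ∃ E ⊆ D, A = U F E}

section basic

variable {X : Type u} {ι : Type v} (F : ι → Set X)

theorem mem_U {D : Set ι} {x : X} : x ∈ U F D ↔ ∃ i ∈ D, x ∈ F i := by
  simp [U]

theorem U_iUnion {κ : Sort w} (D : κ → Set ι) : U F (⋃ k, D k) = ⋃ k, U F (D k) := by
  ext x
  simp only [mem_U, mem_iUnion]
  constructor
  · rintro ⟨i, ⟨k, hk⟩, hx⟩
    exact ⟨k, i, hk, hx⟩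
  · rintro ⟨k, i, hk, hx⟩
    exact ⟨i, ⟨k, hk⟩, hx⟩

theorem U_union (D E : Set ι) : U F (D ∪ E) = U F D ∪ U F E := by
  ext x
  simp only [mem_U, mem_union]
  constructor
  · rintro ⟨i, (h | h), hx⟩
    · exact Or.inl ⟨i, h, hx⟩
    · exact Or.inr ⟨i, h, hx⟩
  · rintro (⟨i, h, hx⟩ | ⟨i, h, hx⟩)
    · exact ⟨i, Or.inl h, hx⟩
    · exact ⟨i, Or.inr h, hx⟩

theorem U_iInter (pf : ∀ x, {i | x ∈ F i}.Finite) (D : ℕ → Set ι) (hD : Antitone D) :
    U F (⋂ k, D k) = ⋂ k, U F (D k) := by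
  apply Subset.antisymm
  · intro x hx
    rw [mem_U] at hx
    obtain ⟨i, hi, hx⟩ := hx
    refine mem_iInter.2 fun k => (mem_U F).2 ⟨i, mem_iInter.1 hi k, hx⟩
  · intro x hx
    rw [mem_U]
    by_contra hcon
    push Not at hcon
    have h1 : ∀ i, x ∈ F i → ∃ k, i ∉ D k := by
      intro i hi
      by_contra h
      push Not at h
      exact hcon i (mem_iInter.2 h) hi
    choose! g hg using h1
    obtain ⟨M, hM⟩ := ((pf x).image g).bddAbove
    obtain ⟨i, hi, hxi⟩ := (mem_U F).1 (mem_iInter.1 hx M)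
    exact hg i hxi (hD (hM (mem_image_of_mem g hxi)) hi)

end basic

theorem countable_Iio {α : Ordinal.{0}} (h : α < (Cardinal.aleph 1).ord) :
    {β : W1 | β.1 ≤ α}.Countable := by
  have h1 : (Iio (α + 1)).Countable := by
    rw [← Cardinal.le_aleph0_iff_set_countable, Cardinal.mk_Iio_ordinal, Cardinal.lift_le_aleph0]
    have h2 := lim1 h
    rw [Cardinal.lt_ord] at h2
    have : Cardinal.aleph 1 = Order.succ ℵ₀ := by simp
    rw [this] at h2
    exact Order.lt_succ_iff.1 h2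
  have h2 : Set.InjOn (fun β : W1 => β.1) {β : W1 | β.1 ≤ α} :=
    Subtype.val_injective.injOn
  refine Set.MapsTo.countable_of_injOn (t := Iio (α + 1)) (f := fun β : W1 => β.1) ?_ h2 h1
  intro β hβ
  exact lt_of_le_of_lt hβ (lt_add_one α)

theorem mk_W1 : #W1 = Cardinal.lift.{1} (Cardinal.aleph.{0} 1) := by
  have := Cardinal.mk_Iio_ordinal (Cardinal.aleph.{0} 1).ord
  rw [Cardinal.card_ord] at this
  exact this

theorem exists_code : ∃ c : W1 → (ℕ → Bool), Function.Injective c := by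
  have h : Cardinal.lift.{0} #W1 ≤ Cardinal.lift.{1} #(ℕ → Bool) := by
    rw [mk_W1]
    simp only [Cardinal.lift_id, Cardinal.mk_pi, Cardinal.mk_bool, Cardinal.prod_const,
      Cardinal.lift_uzero]
    simp [Cardinal.aleph0_lt_continuum]
  exact ⟨_, (Cardinal.lift_mk_le'.1 h).some.injective⟩

section good

variable {X : Type u} [MetricSpace X] {S : Ordinal.{0} → Set (Set X)} (hS : IsHier X S)
variable {ι : Type v} (F : ι → Set X) (pf : ∀ x, {i | x ∈ F i}.Finite)
variable (bor : ∀ D : Set ι, @MeasurableSet X (borel X) (U F D))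

include hS pf bor

/-- Gluing a point-countable family of index sets. -/
theorem glue {W : Type w} (c : W → (ℕ → Bool)) (hc : Function.Injective c) (T : W → Set ι)
    (hT : ∀ i, {t | i ∈ T t}.Countable) : Bd S (range fun t => U F (T t)) := by
  have h1 : ∀ i, ∃ g : W → ℕ, Set.InjOn g {t | i ∈ T t} :=
    fun i => Set.countable_iff_exists_injOn.1 (hT i)
  choose g hg using h1
  let C : ℕ → (k : ℕ) → (Fin k → Bool) → Set ι := fun n k σ =>
    {i | ∃ t, i ∈ T t ∧ g i t = n ∧ ∀ j : Fin k, c t j = σ j}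
  have key : ∀ t, T t = ⋃ n, ⋂ k, C n k (fun j => c t j) := by
    intro t
    ext i
    simp only [mem_iUnion, mem_iInter]
    constructor
    · intro hi
      exact ⟨g i t, fun k => ⟨t, hi, rfl, fun j => rfl⟩⟩
    · rintro ⟨n, hn⟩
      choose s hs1 hs2 hs3 using hn
      have e : ∀ k, s k = s 0 := by
        intro k
        apply hg i (hs1 k) (hs1 0)
        rw [hs2, hs2]
      have e2 : s 0 = t := by
        apply hc
        funext m
        have := hs3 (m + 1) ⟨m, Nat.lt_succ_self m⟩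
        rw [e] at this
        exact this
      rw [← e2]
      exact hs1 0
  have anti : ∀ t n, Antitone fun k => C n k (fun j => c t j) := by
    intro t n k k' hk i hi
    obtain ⟨s, h1, h2, h3⟩ := hi
    exact ⟨s, h1, h2, fun j => h3 ⟨j.1, lt_of_lt_of_le j.2 hk⟩⟩
  have base : Bd S (range fun q : (ℕ × Σ k : ℕ, (Fin k → Bool)) => U F (C q.1 q.2.1 q.2.2)) := by
    apply Bd.countable hS (countable_range _)
    rintro _ ⟨q, rfl⟩
    exact bor _
  refine (Bd.iUnions hS (Bd.iInters hS base)).mono ?_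
  rintro _ ⟨t, rfl⟩
  refine ⟨fun n => ⋂ k, U F (C n k (fun j => c t j)), fun n => ⟨fun k => U F (C n k fun j => c t j),
    fun k => ⟨(n, ⟨k, fun j => c t j⟩), rfl⟩, rfl⟩, ?_⟩
  show U F (T t) = _
  rw [key t, U_iUnion]
  congr 1
  funext n
  rw [U_iInter F pf _ (anti t n)]

omit [MetricSpace X] hS pf bor in
theorem bad_wit {D : Set ι} (h : ¬ Good S F D) (α : Ordinal.{0}) :
    ∃ E ⊆ D, (1 ≤ α ∧ α < (Cardinal.aleph 1).ord → U F E ∉ S α) := by
  by_cases h1 : 1 ≤ α ∧ α < (Cardinal.aleph 1).ord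
  · by_contra hcon
    push Not at hcon
    apply h
    refine ⟨α, h1.1, h1.2, ?_⟩
    rintro _ ⟨E, hE, rfl⟩
    exact (hcon E hE).2
  · exact ⟨∅, by simp, fun h => absurd h h1⟩

omit [MetricSpace X] hS pf bor in
theorem Good.mono {D E : Set ι} (h : Good S F D) (hE : E ⊆ D) : Good S F E := by
  refine Bd.mono h ?_
  rintro _ ⟨G, hG, rfl⟩
  exact ⟨G, hG.trans hE, rfl⟩

omit pf bor in
theorem Good.iUnion {D : ℕ → Set ι} (h : ∀ n, Good S F (D n)) : Good S F (⋃ n, D n) := by
  refine (Bd.iUnions hS (Bd.iUnion hS h)).mono ?_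
  rintro _ ⟨E, hE, rfl⟩
  refine ⟨fun n => U F (E ∩ D n), fun n => mem_iUnion.2 ⟨n, E ∩ D n, inter_subset_right, rfl⟩, ?_⟩
  rw [← U_iUnion, ← inter_iUnion, inter_eq_left.2 hE]

omit pf bor in
theorem Good.union {D E : Set ι} (hD : Good S F D) (hE : Good S F E) : Good S F (D ∪ E) := by
  have : Good S F (⋃ n : ℕ, if n = 0 then D else E) := by
    apply Good.iUnion hS
    intro n
    by_cases h : n = 0
    · simpa [h] using hD
    · simpa [h] using hE
  refine this.mono F ?_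
  rintro i (hi | hi)
  · exact mem_iUnion.2 ⟨0, by simpa using hi⟩
  · exact mem_iUnion.2 ⟨1, by simpa using hi⟩

omit pf in
theorem Good.single (i : ι) : Good S F {i} := by
  refine Bd.mono (Bd.countable hS (A := {U F ∅, U F {i}}) (by simp) ?_) ?_
  · rintro B (rfl | rfl) <;> exact bor _
  · rintro _ ⟨E, hE, rfl⟩
    rcases subset_singleton_iff_eq.1 hE with rfl | rfl
    · exact Or.inl rfl
    · exact Or.inr rfl

/-- There is no point-countable family indexed by the countable ordinals with unbounded classes. -/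
theorem no_wit (T : W1 → Set ι) (hT : ∀ i, {t | i ∈ T t}.Countable)
    (h : ∀ t : W1, 1 ≤ t.1 → U F (T t) ∉ S t.1) : False := by
  obtain ⟨c, hc⟩ := exists_code
  obtain ⟨α, h1, h2, h3⟩ := glue hS F pf bor c hc T hT
  exact h ⟨α, h2⟩ h1 (h3 ⟨⟨α, h2⟩, rfl⟩)

/-- Every pairwise disjoint collection of bad sets is countable. -/
theorem sat {V : Type w} (D : V → Set ι) (hd : Pairwise fun a b => Disjoint (D a) (D b))
    (hbad : ∀ a, ¬ Good S F (D a)) : Countable V := by
  by_contra hV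
  have h1 : Cardinal.lift.{w} #W1 ≤ Cardinal.lift.{1} #V := by
    rw [mk_W1, Cardinal.lift_lift]
    have : Cardinal.aleph 1 ≤ #V := by
      have h0 : (Cardinal.aleph 1 : Cardinal.{w}) = Order.succ ℵ₀ := by simp
      rw [h0, Order.succ_le_iff]
      by_contra hle
      exact hV (Cardinal.mk_le_aleph0_iff.1 (not_lt.1 hle))
    have h2 := Cardinal.lift_le.{1}.2 this
    simpa using h2
  obtain ⟨e⟩ := Cardinal.lift_mk_le'.1 h1
  have h2 : ∀ t : W1, ∃ E ⊆ D (e t), (1 ≤ t.1 ∧ t.1 < (Cardinal.aleph 1).ord → U F E ∉ S t.1) :=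
    fun t => bad_wit F (hbad (e t)) t.1
  choose E hE1 hE2 using h2
  refine no_wit hS F pf bor E ?_ fun t ht => hE2 t ⟨ht, t.2⟩
  intro i
  apply Set.Subsingleton.countable
  intro s hs t ht
  by_contra hne
  have : e s ≠ e t := fun h => hne (e.injective h)
  exact (disjoint_left.1 (hd this)) (hE1 s hs) (hE1 t ht)

/-- Unions of `ℵ₁` many good sets are good. -/
theorem Good.union_W1 (D : W1 → Set ι) (hD : ∀ a, Good S F (D a)) : Good S F (⋃ a, D a) := by
  -- disjointify
  let D' : W1 → Set ι := fun a => D a \ ⋃ b : {b : W1 // b < a}, D b.1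
  have hD' : ∀ a, Good S F (D' a) := fun a => (hD a).mono F sdiff_subset
  have huniq : ∀ i a b, i ∈ D' a → i ∈ D' b → a = b := by
    intro i a b ha hb
    rcases lt_trichotomy a b with h | h | h
    · exact absurd (mem_iUnion.2 ⟨⟨a, h⟩, ha.1⟩) hb.2
    · exact h
    · exact absurd (mem_iUnion.2 ⟨⟨b, h⟩, hb.1⟩) ha.2
  have hcov : ∀ i ∈ ⋃ a, D a, ∃ a, i ∈ D' a := by
    intro i hi
    obtain ⟨a, ha⟩ := mem_iUnion.1 hi
    have hne : {a : W1 | i ∈ D a}.Nonempty := ⟨a, ha⟩
    have hwf : WellFounded (fun a b : W1 => a < b) := wellFounded_lt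
    refine ⟨hwf.min _ hne, hwf.min_mem _ hne, ?_⟩
    intro hcon
    obtain ⟨⟨b, hb⟩, hb2⟩ := mem_iUnion.1 hcon
    exact hwf.not_lt_min {a : W1 | i ∈ D a} hb2 hb
  -- uniform bound
  have hunif : Bd S {A | ∃ a, ∃ E ⊆ D' a, A = U F E} := by
    by_contra hcon
    have h1 : ∀ t : W1, ∃ a, ∃ E ⊆ D' a, (1 ≤ t.1 → U F E ∉ S t.1) := by
      intro t
      by_cases ht : 1 ≤ t.1
      · by_contra h
        push Not at h
        apply hcon
        refine ⟨t.1, ht, t.2, ?_⟩
        rintro _ ⟨a, E, hE, rfl⟩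
        exact (h a E hE).2
      · exact ⟨⟨1, one_lt_om⟩, ∅, by simp, fun h => absurd h ht⟩
    choose a E hE1 hE2 using h1
    refine no_wit hS F pf bor E ?_ hE2
    intro i
    by_cases hi : ∃ t, i ∈ E t
    · obtain ⟨t0, ht0⟩ := hi
      obtain ⟨β, hβ1, hβ2, hβ3⟩ := hD' (a t0)
      refine (countable_Iio hβ2).mono ?_
      intro t ht
      have e : a t = a t0 := huniq i _ _ (hE1 t ht) (hE1 t0 ht0)
      by_contra hlt
      have hlt' : β ≤ t.1 := (not_le.1 hlt).le
      apply hE2 t (hβ1.trans hlt')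
      apply FB.mono hS hβ1 hlt' t.2
      apply hβ3
      exact ⟨E t, by rw [← e]; exact hE1 t, rfl⟩
    · have : {t | i ∈ E t} = ∅ := by
        ext t
        simp only [mem_ofPred_eq, mem_empty_iff_false, iff_false]
        exact fun h => hi ⟨t, h⟩
      rw [this]
      exact countable_empty
  by_contra hbad
  have h2 := fun t : W1 => bad_wit F hbad t.1
  choose T hT1 hT2 using h2
  -- low part and high part
  let P : W1 → Set ι := fun t => {i | i ∈ T t ∧ ∃ a ≤ t, i ∈ D' a}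
  let Q : W1 → Set ι := fun t => {i | i ∈ T t ∧ ∃ a, t < a ∧ i ∈ D' a}
  have hTPQ : ∀ t, T t = P t ∪ Q t := by
    intro t
    ext i
    constructor
    · intro hi
      obtain ⟨a, ha⟩ := hcov i (hT1 t hi)
      rcases le_or_gt a t with h | h
      · exact Or.inl ⟨hi, a, h, ha⟩
      · exact Or.inr ⟨hi, a, h, ha⟩
    · rintro (h | h)
      · exact h.1
      · exact h.1
  have hQ : Bd S (range fun t => U F (Q t)) := by
    obtain ⟨c, hc⟩ := exists_code
    apply glue hS F pf bor c hc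
    intro i
    by_cases hi : ∃ a, i ∈ D' a
    · obtain ⟨a0, ha0⟩ := hi
      refine (countable_Iio a0.2).mono ?_
      rintro t ⟨-, a, hta, ha⟩
      rw [huniq i a a0 ha ha0] at hta
      exact hta.le
    · have : {t | i ∈ Q t} = ∅ := by
        ext t
        simp only [mem_ofPred_eq, mem_empty_iff_false, iff_false]
        rintro ⟨-, a, -, ha⟩
        exact hi ⟨a, ha⟩
      rw [this]
      exact countable_empty
  have hP : Bd S (range fun t => U F (P t)) := by
    refine (Bd.sUnions hS hunif).mono ?_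
    rintro _ ⟨t, rfl⟩
    refine ⟨(fun a => U F (T t ∩ D' a)) '' {a | a.1 ≤ t.1}, (countable_Iio t.2).image _, ?_, ?_⟩
    · rintro _ ⟨a, -, rfl⟩
      exact ⟨a, T t ∩ D' a, inter_subset_right, rfl⟩
    · ext x
      simp only [sUnion_image, mem_iUnion, mem_U]
      constructor
      · rintro ⟨i, ⟨hi, a, hat, ha⟩, hx⟩
        exact ⟨a, hat, i, ⟨hi, ha⟩, hx⟩
      · rintro ⟨a, hat, i, ⟨hi, ha⟩, hx⟩
        exact ⟨i, ⟨hi, a, hat, ha⟩, hx⟩
  obtain ⟨α, h1, h2, h3⟩ := Bd.union2 hS hP hQ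
  apply hT2 ⟨α, h2⟩ ⟨h1, h2⟩
  apply h3
  refine ⟨_, ⟨⟨α, h2⟩, rfl⟩, _, ⟨⟨α, h2⟩, rfl⟩, ?_⟩
  show U F (T ⟨α, h2⟩) = U F (P ⟨α, h2⟩) ∪ U F (Q ⟨α, h2⟩)
  rw [hTPQ, U_union]

end good

end Pool.Agent.K1H66.FB
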