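import Mathlib

/-!
# The Borel hierarchy of a metric space, bounded collections
-/

set_option autoImplicit false

open Set Cardinal Ordinal

namespace Pool.Agent.K1H66.FB

universe u v

/-- `S` is the additive Borel hierarchy of `X` (levels `1 ≤ α < ω₁`). -/
def IsHier (X : Type u) [TopologicalSpace X] (S : Ordinal.{0} → Set (Set X)) : Prop :=
  S 1 = {U : Set X | IsOpen U} ∧
  ∀ α : Ordinal.{0}, 1 < α → α < (Cardinal.aleph 1).ord →
    S α = {A : Set X | ∃ f : ℕ → Set X, A = (⋃ n, f n) ∧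
      ∀ n, ∃ β : Ordinal.{0}, 1 ≤ β ∧ β < α ∧ (f n)ᶜ ∈ S β}

/-- A collection of sets is bounded when it is contained in one class of the hierarchy. -/
def Bd {X : Type u} (S : Ordinal.{0} → Set (Set X)) (A : Set (Set X)) : Prop :=
  ∃ α : Ordinal.{0}, 1 ≤ α ∧ α < (Cardinal.aleph 1).ord ∧ A ⊆ S α

theorem lim1 {α : Ordinal.{0}} (h : α < (Cardinal.aleph 1).ord) :
    α + 1 < (Cardinal.aleph 1).ord := by
  exact (Cardinal.isSuccLimit_ord (Cardinal.aleph0_le_aleph 1)).add_one_lt h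

theorem one_lt_om : (1 : Ordinal.{0}) < (Cardinal.aleph 1).ord := by
  have : (0 : Ordinal.{0}) < (Cardinal.aleph 1).ord := by
    rw [Cardinal.lt_ord]; simp
  simpa using lim1 this

section

variable {X : Type u} [MetricSpace X] {S : Ordinal.{0} → Set (Set X)}

theorem mono (h : IsHier X S) {α β : Ordinal.{0}} (h1 : 1 ≤ α) (hab : α ≤ β)
    (hb : β < (Cardinal.aleph 1).ord) : S α ⊆ S β := by
  rcases eq_or_lt_of_le hab with rfl | hlt
  · exact subset_rfl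
  · rcases eq_or_lt_of_le h1 with rfl | h1'
    · intro U hU
      rw [h.1] at hU
      rw [h.2 β hlt hb]
      have hU' : IsOpen U := hU
      obtain ⟨F, hF1, -, hF3, -⟩ := hU'.exists_iUnion_isClosed
      refine ⟨F, hF3.symm, fun n => ⟨1, le_rfl, hlt, ?_⟩⟩
      rw [h.1]
      exact (hF1 n).isOpen_compl
    · intro A hA
      rw [h.2 α h1' (hlt.trans hb)] at hA
      rw [h.2 β (h1'.trans hlt) hb]
      obtain ⟨f, hf, hf2⟩ := hA
      refine ⟨f, hf, fun n => ?_⟩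
      obtain ⟨γ, hγ1, hγ2, hγ3⟩ := hf2 n
      exact ⟨γ, hγ1, hγ2.trans hlt, hγ3⟩

theorem compl_mem (h : IsHier X S) {α : Ordinal.{0}} (h1 : 1 ≤ α)
    (ha : α < (Cardinal.aleph 1).ord) {A : Set X} (hA : A ∈ S α) : Aᶜ ∈ S (α + 1) := by
  rw [h.2 (α + 1) (lt_of_le_of_lt h1 (lt_add_one α)) (lim1 ha)]
  refine ⟨fun _ => Aᶜ, (iUnion_const _).symm, fun n => ⟨α, h1, lt_add_one α, ?_⟩⟩
  simpa using hA

theorem iUnion_mem (h : IsHier X S) {α : Ordinal.{0}} (h1 : 1 ≤ α)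
    (ha : α < (Cardinal.aleph 1).ord) {A : ℕ → Set X} (hA : ∀ n, A n ∈ S α) :
    (⋃ n, A n) ∈ S (α + 1 + 1) := by
  rw [h.2 (α + 1 + 1) (lt_of_le_of_lt (h1.trans (lt_add_one α).le) (lt_add_one _))
    (lim1 (lim1 ha))]
  exact ⟨A, rfl, fun n => ⟨α + 1, h1.trans (lt_add_one α).le, lt_add_one _,
    compl_mem h h1 ha (hA n)⟩⟩

theorem sup_lt {f : ℕ → Ordinal.{0}} (hf : ∀ n, f n < (Cardinal.aleph 1).ord) :
    (⨆ n, f n) < (Cardinal.aleph 1).ord := by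
  rw [Cardinal.ord_aleph] at *
  exact Ordinal.iSup_lt_omega_one hf

theorem exists_bd {f : ℕ → Ordinal.{0}} (hf : ∀ n, f n < (Cardinal.aleph 1).ord) :
    ∃ β < (Cardinal.aleph 1).ord, ∀ n, f n ≤ β :=
  ⟨⨆ n, f n, sup_lt hf, fun n => Ordinal.le_iSup f n⟩

omit [MetricSpace X] in
theorem Bd.mono {A B : Set (Set X)} (hB : Bd S B) (h : A ⊆ B) : Bd S A := by
  obtain ⟨α, h1, h2, h3⟩ := hB
  exact ⟨α, h1, h2, h.trans h3⟩

theorem Bd.iUnion (hS : IsHier X S) {A : ℕ → Set (Set X)} (h : ∀ n, Bd S (A n)) :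
    Bd S (⋃ n, A n) := by
  choose f hf1 hf2 hf3 using h
  obtain ⟨β, hβ, hβ2⟩ := exists_bd hf2
  refine ⟨β, (hf1 0).trans (hβ2 0), hβ, ?_⟩
  exact iUnion_subset fun n => (hf3 n).trans (FB.mono hS (hf1 n) (hβ2 n) hβ)

theorem Bd.union (hS : IsHier X S) {A B : Set (Set X)} (hA : Bd S A) (hB : Bd S B) :
    Bd S (A ∪ B) := by
  have : Bd S (⋃ n : ℕ, if n = 0 then A else B) := by
    apply Bd.iUnion hS
    intro n
    by_cases h : n = 0
    · simpa [h] using hA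
    · simpa [h] using hB
  refine this.mono ?_
  rintro C (hC | hC)
  · exact mem_iUnion.2 ⟨0, by simpa using hC⟩
  · exact mem_iUnion.2 ⟨1, by simpa using hC⟩

theorem Bd.compl (hS : IsHier X S) {A : Set (Set X)} (hA : Bd S A) :
    Bd S {B | Bᶜ ∈ A} := by
  obtain ⟨α, h1, h2, h3⟩ := hA
  refine ⟨α + 1, h1.trans (lt_add_one α).le, lim1 h2, ?_⟩
  intro B hB
  have := compl_mem hS h1 h2 (h3 hB)
  simpa using this

theorem Bd.iUnions (hS : IsHier X S) {A : Set (Set X)} (hA : Bd S A) :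
    Bd S {B | ∃ f : ℕ → Set X, (∀ n, f n ∈ A) ∧ B = ⋃ n, f n} := by
  obtain ⟨α, h1, h2, h3⟩ := hA
  refine ⟨α + 1 + 1, (h1.trans (lt_add_one α).le).trans (lt_add_one _).le, lim1 (lim1 h2), ?_⟩
  rintro B ⟨f, hf, rfl⟩
  exact iUnion_mem hS h1 h2 fun n => h3 (hf n)

theorem Bd.iInters (hS : IsHier X S) {A : Set (Set X)} (hA : Bd S A) :
    Bd S {B | ∃ f : ℕ → Set X, (∀ n, f n ∈ A) ∧ B = ⋂ n, f n} := by
  refine (Bd.compl hS (Bd.iUnions hS (Bd.compl hS hA))).mono ?_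
  rintro B ⟨f, hf, rfl⟩
  refine ⟨fun n => (f n)ᶜ, fun n => ?_, ?_⟩
  · simpa using hf n
  · rw [compl_iInter]

theorem borel_mem (hS : IsHier X S) {A : Set X} (hA : @MeasurableSet X (borel X) A) :
    ∃ α : Ordinal.{0}, 1 ≤ α ∧ α < (Cardinal.aleph 1).ord ∧ A ∈ S α := by
  induction A, hA using MeasurableSpace.generateFrom_induction with
  | hC t ht =>
    refine ⟨1, le_rfl, one_lt_om, ?_⟩
    rw [hS.1]
    exact ht
  | empty =>
    refine ⟨1, le_rfl, one_lt_om, ?_⟩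
    rw [hS.1]
    exact isOpen_empty
  | compl t ht ih =>
    obtain ⟨α, h1, h2, h3⟩ := ih
    exact ⟨α + 1, h1.trans (lt_add_one α).le, lim1 h2, compl_mem hS h1 h2 h3⟩
  | iUnion f hf ih =>
    choose g hg1 hg2 hg3 using ih
    obtain ⟨β, hβ, hβ2⟩ := exists_bd hg2
    refine ⟨β + 1 + 1, (((hg1 0).trans (hβ2 0)).trans (lt_add_one β).le).trans (lt_add_one _).le,
      lim1 (lim1 hβ), ?_⟩
    exact iUnion_mem hS ((hg1 0).trans (hβ2 0)) hβ fun n =>
      mono hS (hg1 n) (hβ2 n) hβ (hg3 n)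

theorem Bd.singleton (hS : IsHier X S) {A : Set X} (hA : @MeasurableSet X (borel X) A) :
    Bd S {A} := by
  obtain ⟨α, h1, h2, h3⟩ := borel_mem hS hA
  exact ⟨α, h1, h2, by simpa using h3⟩

omit [MetricSpace X] in
theorem Bd.empty : Bd S (∅ : Set (Set X)) := ⟨1, le_rfl, one_lt_om, by simp⟩

theorem Bd.countable (hS : IsHier X S) {A : Set (Set X)} (hc : A.Countable)
    (hA : ∀ B ∈ A, @MeasurableSet X (borel X) B) : Bd S A := by
  rcases A.eq_empty_or_nonempty with rfl | hne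
  · exact Bd.empty
  · obtain ⟨f, rfl⟩ := hc.exists_eq_range hne
    have : Bd S (⋃ n, {f n}) := Bd.iUnion hS fun n => Bd.singleton hS (hA _ (mem_range_self n))
    refine this.mono ?_
    rintro _ ⟨n, rfl⟩
    exact mem_iUnion.2 ⟨n, rfl⟩

/-- countable unions of members -/
theorem Bd.sUnions (hS : IsHier X S) {A : Set (Set X)} (hA : Bd S A) :
    Bd S {B | ∃ C : Set (Set X), C.Countable ∧ C ⊆ A ∧ B = ⋃₀ C} := by
  have h0 : Bd S {(∅ : Set X)} :=
    Bd.singleton hS (@MeasurableSet.empty X (borel X))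
  refine (Bd.iUnions hS (Bd.union hS hA h0)).mono ?_
  rintro B ⟨C, hC, hCA, rfl⟩
  rcases C.eq_empty_or_nonempty with rfl | hne
  · exact ⟨fun _ => ∅, fun n => Or.inr rfl, by simp⟩
  · obtain ⟨f, rfl⟩ := hC.exists_eq_range hne
    exact ⟨f, fun n => Or.inl (hCA (mem_range_self n)), by simp [sUnion_range]⟩

theorem Bd.union2 (hS : IsHier X S) {A B : Set (Set X)} (hA : Bd S A) (hB : Bd S B) :
    Bd S {C | ∃ P ∈ A, ∃ Q ∈ B, C = P ∪ Q} := by
  refine (Bd.sUnions hS (Bd.union hS hA hB)).mono ?_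
  rintro C ⟨P, hP, Q, hQ, rfl⟩
  refine ⟨{P, Q}, by simp, ?_, by simp⟩
  rintro R (rfl | rfl)
  · exact Or.inl hP
  · exact Or.inr hQ

end

end Pool.Agent.K1H66.FB
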