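import Pool.Agent.K1H66.FB.Ulam

/-!
# The least size of a bad union is at most the continuum; the quotient family
-/

set_option autoImplicit false

open Set Cardinal Ordinal

namespace Pool.Agent.K1H66.FB

universe u v w

theorem bdd_W1 {C : Set W1} (hC : C.Countable) : ∃ δ : W1, ∀ a ∈ C, a < δ := by
  rcases C.eq_empty_or_nonempty with rfl | hne
  · exact ⟨⟨1, one_lt_om⟩, by simp⟩
  · obtain ⟨f, rfl⟩ := hC.exists_eq_range hne
    obtain ⟨β, hβ, hβ2⟩ := exists_bd (fun n => (f n).2)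
    refine ⟨⟨β + 1, lim1 hβ⟩, ?_⟩
    rintro _ ⟨n, rfl⟩
    exact Subtype.mk_lt_mk.2 (lt_of_le_of_lt (hβ2 n) (lt_add_one β))

theorem card_nodes :
    #(Σ δ : W1, ({γ : W1 // γ < δ} → Prop)) ≤ 𝔠 := by
  rw [Cardinal.mk_sigma]
  have h1 : ∀ δ : W1, #({γ : W1 // γ < δ} → Prop) ≤ 𝔠 := by
    intro δ
    have h2 : #{γ : W1 // γ < δ} ≤ ℵ₀ := by
      have h3 : {γ : W1 | γ < δ} ⊆ {β : W1 | β.1 ≤ δ.1} := fun γ hγ =>
        (show γ ≤ δ from le_of_lt hγ)
      have h4 := (countable_Iio δ.2).mono h3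
      exact Cardinal.mk_le_aleph0_iff.2 h4
    rw [Cardinal.mk_arrow, Cardinal.mk_Prop, ← Cardinal.two_power_aleph0]
    simp only [Cardinal.lift_ofNat, Cardinal.lift_uzero]
    exact Cardinal.power_le_power_left two_ne_zero h2
  refine (Cardinal.sum_le_sum _ _ h1).trans ?_
  rw [Cardinal.sum_const, Cardinal.lift_id, Cardinal.lift_id, mk_W1]
  have h3 : Cardinal.lift.{1} (Cardinal.aleph.{0} 1) ≤ 𝔠 := by
    simpa using Cardinal.aleph_one_le_continuum
  calc _ ≤ 𝔠 * 𝔠 := mul_le_mul' h3 le_rfl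
    _ = 𝔠 := Cardinal.continuum_mul_self

section

variable {ι : Type u} {G : Set ι → Prop}

theorem kap_le_continuum (hG : Idl G) (e : ι → (W1 → Prop)) (he : Function.Injective e) :
    kap G ≤ 𝔠 := by
  by_contra hcon
  push Not at hcon
  let P : (Σ δ : W1, ({γ : W1 // γ < δ} → Prop)) → Set ι :=
    fun q => {i | ∀ γ : {γ : W1 // γ < q.1}, e i γ.1 = q.2 γ}
  have h1 : #{D : Set ι | D ∈ range P ∧ G D} ≤ 𝔠 := by
    have h2 : Cardinal.lift.{1} #(range P) ≤ Cardinal.lift.{u} #(Σ δ : W1, ({γ : W1 // γ < δ} → Prop)) :=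
      Cardinal.mk_range_le_lift
    have h3 : Cardinal.lift.{1} #(range P) ≤ Cardinal.lift.{1} (𝔠 : Cardinal.{u}) := by
      refine h2.trans ?_
      have := Cardinal.lift_le.{u}.2 card_nodes
      simpa using this
    have h4 := Cardinal.lift_le.1 h3
    refine le_trans (Cardinal.mk_le_mk_of_subset ?_) h4
    intro D hD
    exact hD.1
  have h5 := un_of_lt hcon _ h1 (fun D hD => hD.2)
  have h6 : ∃ i, i ∉ ⋃₀ {D : Set ι | D ∈ range P ∧ G D} := by
    by_contra h
    push Not at h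
    exact hG.bad (hG.mono h5 (fun i _ => h i))
  obtain ⟨i, hi⟩ := h6
  have h7 : ∀ δ : W1, ¬ G (P ⟨δ, fun γ => e i γ.1⟩) := by
    intro δ hδ
    exact hi ⟨_, ⟨⟨_, rfl⟩, hδ⟩, fun γ => rfl⟩
  let R : W1 → Set ι := fun δ => {j | (∀ γ < δ, e j γ = e i γ) ∧ e j δ ≠ e i δ}
  have hR : ∀ a b, a ≠ b → Disjoint (R a) (R b) := by
    intro a b hab
    rw [disjoint_left]
    intro j hj hj'
    rcases lt_or_gt_of_ne hab with h | h
    · exact hj.2 (hj'.1 a h)
    · exact hj'.2 (hj.1 b h)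
  have hc : {δ | ¬ G (R δ)}.Countable := by
    have : Countable {δ // ¬ G (R δ)} :=
      hG.sat1 (fun δ : {δ // ¬ G (R δ)} => R δ.1)
        (fun a b hab => hR a.1 b.1 (fun h => hab (Subtype.ext h))) (fun δ => δ.2)
    exact this
  obtain ⟨δ0, hδ0⟩ := bdd_W1 hc
  apply h7 δ0
  have h8 : G (⋃ δ : W1, if δ < δ0 then ∅ else R δ) := by
    apply hG.unW1
    intro δ
    by_cases h : δ < δ0
    · simpa [h] using hG.empty
    · simp only [h, if_false]
      by_contra hb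
      exact h (hδ0 δ hb)
  refine hG.mono (union2 hG (hG.single i) h8) ?_
  intro j hj
  by_cases hji : j = i
  · exact Or.inl hji
  · right
    have hne : {δ : W1 | e j δ ≠ e i δ}.Nonempty := by
      by_contra h
      rw [not_nonempty_iff_eq_empty] at h
      apply hji
      apply he
      funext δ
      by_contra hδ
      have : δ ∈ {δ : W1 | e j δ ≠ e i δ} := hδ
      rw [h] at this
      exact this
    have hwf : WellFounded (fun a b : W1 => a < b) := wellFounded_lt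
    have hmin := hwf.min_mem _ hne
    refine mem_iUnion.2 ⟨hwf.min _ hne, ?_⟩
    have hge : ¬ hwf.min _ hne < δ0 := by
      intro hlt
      exact hmin (hj ⟨_, hlt⟩)
    simp only [hge, if_false]
    refine ⟨?_, hmin⟩
    intro γ hγ
    by_contra hne'
    exact hwf.not_lt_min {δ : W1 | e j δ ≠ e i δ} hne' hγ

end

section final

variable {X : Type u} [MetricSpace X] {S : Ordinal.{0} → Set (Set X)}

theorem idl_good (hS : IsHier X S) {ι : Type u} (F : ι → Set X)
    (pf : ∀ x, {i | x ∈ F i}.Finite)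
    (bor : ∀ D : Set ι, @MeasurableSet X (borel X) (U F D)) (hbad : ¬ Good S F Set.univ) :
    Idl (Good S F) where
  empty := by
    refine Bd.mono (Bd.countable hS (A := {U F ∅}) (by simp) ?_) ?_
    · rintro B rfl; exact bor _
    · rintro _ ⟨E, hE, rfl⟩
      rw [subset_empty_iff.1 hE]
      rfl
  mono := fun h hE => Good.mono F h hE
  single := fun i => Good.single hS F bor i
  unW1 := fun D hD => Good.union_W1 hS F pf bor D hD
  sat := fun D hd hb => sat hS F pf bor D hd hb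
  sat1 := fun D hd hb => sat hS F pf bor D hd hb
  bad := hbad

/-- The indexed form. -/
theorem indexed (hS : IsHier X S) {ι : Type u} (F : ι → Set X)
    (pf : ∀ x, {i | x ∈ F i}.Finite)
    (bor : ∀ D : Set ι, @MeasurableSet X (borel X) (U F D)) (hbad : ¬ Good S F Set.univ) :
    ∃ κ : Cardinal.{u}, Cardinal.aleph 1 < κ ∧ κ ≤ 𝔠 ∧ κ ≤ #ι ∧ κ.IsRegular ∧
      (∀ c < κ, Order.succ c < κ) ∧ SatIdealOn κ := by
  have h1 := fun t : W1 => bad_wit F hbad t.1
  choose T hT1 hT2 using h1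
  let e : ι → (W1 → Prop) := fun i t => i ∈ T t
  let s : Setoid ι := Setoid.ker e
  let F' : Quotient s → Set X := fun q => {x | ∃ i, Quotient.mk s i = q ∧ x ∈ F i}
  have hU : ∀ D : Set (Quotient s), U F' D = U F {i | Quotient.mk s i ∈ D} := by
    intro D
    ext x
    rw [mem_U, mem_U]
    constructor
    · rintro ⟨q, hq, i, rfl, hx⟩
      exact ⟨i, hq, hx⟩
    · rintro ⟨i, hi, hx⟩
      exact ⟨_, hi, i, rfl, hx⟩
  have pf' : ∀ x, {q | x ∈ F' q}.Finite := by
    intro x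
    refine ((pf x).image (Quotient.mk s)).subset ?_
    rintro q ⟨i, rfl, hx⟩
    exact ⟨i, hx, rfl⟩
  have bor' : ∀ D, @MeasurableSet X (borel X) (U F' D) := by
    intro D
    rw [hU]
    exact bor _
  have hker : ∀ i j, Quotient.mk s i = Quotient.mk s j → e i = e j := by
    intro i j h
    exact Quotient.exact h
  have hbad' : ¬ Good S F' Set.univ := by
    rintro ⟨α, h1, h2, h3⟩
    apply hT2 ⟨α, h2⟩ ⟨h1, h2⟩
    apply h3
    refine ⟨{q | ∃ i, Quotient.mk s i = q ∧ i ∈ T ⟨α, h2⟩}, subset_univ _, ?_⟩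
    rw [hU]
    congr 1
    ext i
    constructor
    · intro hi
      exact ⟨i, rfl, hi⟩
    · rintro ⟨j, hj, hi⟩
      have := congrFun (hker j i hj) ⟨α, h2⟩
      exact this.mp hi
  have hG := idl_good hS F' pf' bor' hbad'
  obtain ⟨h2, h3, h4⟩ := kap_spec hG
  let e' : Quotient s → (W1 → Prop) := Quotient.lift e (fun i j h => h)
  have he' : Function.Injective e' := by
    intro q r
    induction q using Quotient.inductionOn
    induction r using Quotient.inductionOn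
    intro h
    exact Quotient.sound h
  refine ⟨_, aleph1_lt_kap hG, kap_le_continuum hG e' he', (kap_le hG).trans ?_, h2, h3, h4⟩
  exact Cardinal.mk_le_of_surjective Quotient.mk_surjective

/-- The form for a set of sets. -/
theorem setform (hS : IsHier X S) (𝒳 : Set (Set X))
    (pf : ∀ x : X, {A : Set X | A ∈ 𝒳 ∧ x ∈ A}.Finite)
    (bor : ∀ 𝒴 ⊆ 𝒳, @MeasurableSet X (borel X) (⋃₀ 𝒴))
    (hbad : ¬ ∃ α : Ordinal.{0}, 1 ≤ α ∧ α < (Cardinal.aleph 1).ord ∧ ∀ 𝒴 ⊆ 𝒳, ⋃₀ 𝒴 ∈ S α) :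
    ∃ κ : Cardinal.{u}, Cardinal.aleph 1 < κ ∧ κ ≤ 𝔠 ∧ κ ≤ #𝒳 ∧ κ.IsRegular ∧
      (∀ c < κ, Order.succ c < κ) ∧ SatIdealOn κ := by
  have hU : ∀ D : Set 𝒳, U (fun A : 𝒳 => A.1) D = ⋃₀ (Subtype.val '' D) := by
    intro D
    ext x
    simp only [mem_U, mem_sUnion, mem_image]
    constructor
    · rintro ⟨A, hA, hx⟩
      exact ⟨A.1, ⟨A, hA, rfl⟩, hx⟩
    · rintro ⟨_, ⟨A, hA, rfl⟩, hx⟩
      exact ⟨A, hA, hx⟩
  refine indexed hS (fun A : 𝒳 => A.1) ?_ ?_ ?_
  · intro x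
    have := (pf x).preimage (f := (Subtype.val : 𝒳 → Set X)) Subtype.val_injective.injOn
    refine this.subset ?_
    intro A hA
    exact ⟨A.2, hA⟩
  · intro D
    rw [hU]
    exact bor _ (by rintro _ ⟨A, -, rfl⟩; exact A.2)
  · rintro ⟨α, h1, h2, h3⟩
    apply hbad
    refine ⟨α, h1, h2, fun 𝒴 h𝒴 => ?_⟩
    apply h3
    refine ⟨{A | A.1 ∈ 𝒴}, subset_univ _, ?_⟩
    rw [hU]
    congr 1
    ext A
    constructor
    · intro hA
      exact ⟨⟨A, h𝒴 hA⟩, hA, rfl⟩
    · rintro ⟨B, hB, rfl⟩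
      exact hB

end final

end Pool.Agent.K1H66.FB
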