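import Pool.Agent.K1H66.FB.Good

/-!
# Ideals with countable disjoint families of positive sets, closed under unions of size `ℵ₁`
-/

set_option autoImplicit false

open Set Cardinal Ordinal

namespace Pool.Agent.K1H66.FB

universe u v w

/-- `κ` carries a proper `κ`-complete ideal containing all points such that every pairwise
disjoint collection of positive sets is countable. -/
def SatIdealOn (κ : Cardinal.{u}) : Prop :=
  ∃ (V : Type u) (I : Set (Set V)), #V = κ ∧
    (∀ A ∈ I, ∀ B ⊆ A, B ∈ I) ∧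
    (∀ 𝒜 ⊆ I, #𝒜 < κ → ⋃₀ 𝒜 ∈ I) ∧
    (∀ v, {v} ∈ I) ∧ Set.univ ∉ I ∧
    (∀ 𝒜 : Set (Set V), (∀ A ∈ 𝒜, A ∉ I) → 𝒜.PairwiseDisjoint id → 𝒜.Countable)

theorem mkIio {c : Cardinal.{u}} (i : c.ord.ToType) : #(Iio i) < c := by
  have h := Cardinal.mk_Iio_lt i (by simp)
  simpa using h

/-- An abstract version of the ideal of good sets. -/
structure Idl {ι : Type u} (G : Set ι → Prop) : Prop where
  empty : G ∅
  mono : ∀ {D E : Set ι}, G D → E ⊆ D → G E
  single : ∀ i, G {i}
  unW1 : ∀ D : W1 → Set ι, (∀ a, G (D a)) → G (⋃ a, D a)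
  sat : ∀ {V : Type u} (D : V → Set ι), (Pairwise fun a b => Disjoint (D a) (D b)) →
    (∀ a, ¬ G (D a)) → Countable V
  sat1 : ∀ {V : Type 1} (D : V → Set ι), (Pairwise fun a b => Disjoint (D a) (D b)) →
    (∀ a, ¬ G (D a)) → Countable V
  bad : ¬ G Set.univ

/-- unions of at most `c` many members of `G` are in `G` -/
def Un {ι : Type u} (G : Set ι → Prop) (c : Cardinal.{u}) : Prop :=
  ∀ 𝒢 : Set (Set ι), #𝒢 ≤ c → (∀ D ∈ 𝒢, G D) → G (⋃₀ 𝒢)

section

variable {ι : Type u} {G : Set ι → Prop} (hG : Idl G)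

include hG

theorem un_aleph1 : Un G (Cardinal.aleph 1) := by
  intro 𝒢 h𝒢 hD
  have h1 : Cardinal.lift.{1} #𝒢 ≤ Cardinal.lift.{u} #W1 := by
    rw [mk_W1, Cardinal.lift_lift]
    have h2 := Cardinal.lift_le.{1}.2 h𝒢
    simpa using h2
  obtain ⟨e⟩ := Cardinal.lift_mk_le'.1 h1
  have h3 : ∀ a : W1, G {i | ∃ g : 𝒢, e g = a ∧ i ∈ g.1} := by
    intro a
    by_cases h : ∃ g, e g = a
    · obtain ⟨g, hg⟩ := h
      refine hG.mono (hD g.1 g.2) ?_
      rintro i ⟨g', hg', hi⟩
      have : g' = g := e.injective (hg'.trans hg.symm)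
      rwa [← this]
    · refine hG.mono hG.empty ?_
      rintro i ⟨g, hg, -⟩
      exact h ⟨g, hg⟩
  refine hG.mono (hG.unW1 _ h3) ?_
  rintro i ⟨g, hg, hi⟩
  exact mem_iUnion.2 ⟨e ⟨g, hg⟩, ⟨g, hg⟩, rfl, hi⟩

theorem union2 {D E : Set ι} (hD : G D) (hE : G E) : G (D ∪ E) := by
  have h := un_aleph1 hG {D, E} ?_ ?_
  · simpa using h
  · refine le_trans (le_of_lt ?_) (Cardinal.aleph0_le_aleph 1)
    exact Cardinal.lt_aleph0_iff_set_finite.2 (by simp)
  · rintro F (rfl | rfl)
    · exact hD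
    · exact hE

/-- the least size of a family of members of `G` whose union is not in `G` -/
noncomputable def kap (G : Set ι → Prop) : Cardinal.{u} := sInf {c | ¬ Un G c}

theorem not_un : ¬ Un G #ι := by
  intro h
  apply hG.bad
  have := h (range fun i => {i}) Cardinal.mk_range_le (by rintro _ ⟨i, rfl⟩; exact hG.single i)
  refine hG.mono this ?_
  intro i _
  exact ⟨{i}, ⟨i, rfl⟩, rfl⟩

theorem not_un_kap : ¬ Un G (kap G) :=
  csInf_mem (s := {c | ¬ Un G c}) ⟨_, not_un hG⟩

theorem kap_le : kap G ≤ #ι := csInf_le' (not_un hG)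

omit hG in
theorem un_of_lt {c : Cardinal.{u}} (h : c < kap G) : Un G c := by
  by_contra hc
  exact absurd (csInf_le' (s := {c | ¬ Un G c}) hc) (not_le.2 h)

theorem aleph1_lt_kap : Cardinal.aleph 1 < kap G := by
  by_contra h
  apply not_un_kap hG
  intro 𝒢 h𝒢
  exact un_aleph1 hG 𝒢 (h𝒢.trans (not_lt.1 h))

/-- indexed unions -/
theorem un_index {V : Type u} (hV : #V < kap G) (f : V → Set ι) (hf : ∀ v, G (f v)) :
    G (⋃ v, f v) := by
  have := un_of_lt hV (range f) Cardinal.mk_range_le (by rintro _ ⟨v, rfl⟩; exact hf v)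
  simpa [sUnion_range] using this

omit hG in
/-- The main combinatorial analysis. -/
theorem kap_index (hG : Idl G) : ∃ (f : (kap G).ord.ToType → Set ι),
    (∀ v, G (f v)) ∧ (∀ v w, v ≠ w → Disjoint (f v) (f w)) ∧ ¬ G (⋃ v, f v) := by
  have h := not_un_kap hG
  unfold Un at h
  push Not at h
  obtain ⟨𝒢, h1, h2, h3⟩ := h
  have h1' : #𝒢 ≤ #(kap G).ord.ToType := by rwa [Cardinal.mk_ord_toType]
  obtain ⟨e⟩ := h1'
  let f : (kap G).ord.ToType → Set ι := fun v => {i | ∃ g : 𝒢, e g = v ∧ i ∈ g.1}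
  have hf : ∀ v, G (f v) := by
    intro v
    by_cases h : ∃ g, e g = v
    · obtain ⟨g, hg⟩ := h
      refine hG.mono (h2 g.1 g.2) ?_
      rintro i ⟨g', hg', hi⟩
      have : g' = g := e.injective (hg'.trans hg.symm)
      rwa [← this]
    · refine hG.mono hG.empty ?_
      rintro i ⟨g, hg, -⟩
      exact h ⟨g, hg⟩
  refine ⟨fun v => f v \ ⋃ w : {w // w < v}, f w.1, fun v => hG.mono (hf v) sdiff_subset, ?_, ?_⟩
  · intro v w hvw
    rw [disjoint_left]
    intro i hi hj
    rcases lt_or_gt_of_ne hvw with h | h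
    · exact hj.2 (mem_iUnion.2 ⟨⟨v, h⟩, hi.1⟩)
    · exact hi.2 (mem_iUnion.2 ⟨⟨w, h⟩, hj.1⟩)
  · intro hcon
    apply h3
    refine hG.mono hcon ?_
    rintro i ⟨g, hg, hi⟩
    have hne : {v | i ∈ f v}.Nonempty := ⟨e ⟨g, hg⟩, ⟨g, hg⟩, rfl, hi⟩
    have hwf : WellFounded (fun a b : (kap G).ord.ToType => a < b) := wellFounded_lt
    refine mem_iUnion.2 ⟨hwf.min _ hne, hwf.min_mem _ hne, ?_⟩
    intro hcon
    obtain ⟨⟨b, hb⟩, hb2⟩ := mem_iUnion.1 hcon
    exact hwf.not_lt_min {v | i ∈ f v} hb2 hb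

omit hG in
theorem kap_spec (hG : Idl G) : (kap G).IsRegular ∧ (∀ c < kap G, Order.succ c < kap G) ∧
    SatIdealOn (kap G) := by
  obtain ⟨f, hf1, hf2, hf3⟩ := kap_index hG
  let V := (kap G).ord.ToType
  have hcard : #V = kap G := Cardinal.mk_ord_toType _
  let I : Set (Set V) := {A | G (⋃ v ∈ A, f v)}
  have Imono : ∀ A ∈ I, ∀ B ⊆ A, B ∈ I := by
    intro A hA B hB
    exact hG.mono hA (biUnion_subset_biUnion_left hB)
  have Iun : ∀ 𝒜 ⊆ I, #𝒜 < kap G → ⋃₀ 𝒜 ∈ I := by
    intro 𝒜 h𝒜 hc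
    have := un_index hG hc (fun A : 𝒜 => ⋃ v ∈ A.1, f v) (fun A => h𝒜 A.2)
    refine hG.mono this ?_
    intro i hi
    simp only [mem_sUnion, mem_iUnion] at hi ⊢
    obtain ⟨v, ⟨A, hA, hv⟩, hi⟩ := hi
    exact ⟨⟨A, hA⟩, v, hv, hi⟩
  have Ising : ∀ v : V, {v} ∈ I := by
    intro v
    show G (⋃ w ∈ ({v} : Set V), f w)
    simpa using hf1 v
  have Iuniv : Set.univ ∉ I := by
    intro h
    apply hf3
    have h' : G (⋃ v ∈ (Set.univ : Set V), f v) := h
    simpa using h'
  have Iidx : ∀ {W : Type u} (A : W → Set V), #W < kap G → (∀ w, A w ∈ I) → (⋃ w, A w) ∈ I := by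
    intro W A hW hA
    have := Iun (range A) (by rintro _ ⟨w, rfl⟩; exact hA w) (lt_of_le_of_lt Cardinal.mk_range_le hW)
    simpa [sUnion_range] using this
  have Ismall : ∀ A : Set V, #A < kap G → A ∈ I := by
    intro A hA
    have := Iidx (fun a : A => {a.1}) hA (fun a => Ising _)
    have e : (⋃ a : A, ({a.1} : Set V)) = A := by simp
    rwa [e] at this
  have Isat : ∀ {W : Type u} (A : W → Set V), (Pairwise fun a b => Disjoint (A a) (A b)) →
      (∀ a, A a ∉ I) → Countable W := by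
    intro W A hA hbad
    refine hG.sat (fun w => ⋃ v ∈ A w, f v) ?_ hbad
    intro a b hab
    rw [disjoint_left]
    intro i hi hj
    simp only [mem_iUnion] at hi hj
    obtain ⟨v, hv, hi⟩ := hi
    obtain ⟨w, hw, hj⟩ := hj
    by_cases hvw : v = w
    · subst hvw
      exact disjoint_left.1 (hA hab) hv hw
    · exact disjoint_left.1 (hf2 v w hvw) hi hj
  have hal : ℵ₀ < kap G := lt_of_le_of_lt (Cardinal.aleph0_le_aleph 1) (aleph1_lt_kap hG)
  have Iic_small : ∀ v : V, #(Iic v) < kap G := by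
    intro v
    have h1 : (Iic v : Set V) = insert v (Iio v) := by
      ext w; simp [le_iff_lt_or_eq, or_comm]
    have h2 : #(Iio v) < kap G := mkIio v
    rw [h1]
    refine lt_of_le_of_lt Cardinal.mk_insert_le ?_
    exact Cardinal.add_lt_of_lt hal.le h2 (lt_of_lt_of_le Cardinal.one_lt_aleph0 hal.le)
  refine ⟨⟨hal.le, ?_⟩, ?_, V, I, hcard, Imono, Iun, Ising, Iuniv, ?_⟩
  · by_contra hcof
    push Not at hcof
    rw [← cof_toType] at hcof
    obtain ⟨s, hs, hs2⟩ := Order.exists_cof_eq (kap G).ord.ToType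
    rw [← hs2] at hcof
    apply Iuniv
    refine Imono _ (Iidx (fun c : s => Iic c.1) hcof (fun c => Ismall _ (Iic_small c.1))) _ ?_
    intro v _
    obtain ⟨c, hc, hvc⟩ := hs v
    exact mem_iUnion.2 ⟨⟨c, hc⟩, hvc⟩
  · intro c hc
    by_contra hsucc
    have e : kap G = Order.succ c := le_antisymm (not_lt.1 hsucc) (Order.succ_le_of_lt hc)
    have hc0 : ℵ₀ ≤ c := by
      by_contra h
      have h1 := Order.succ_le_of_lt (not_le.1 h)
      rw [← e] at h1
      exact absurd hal (not_lt.2 h1)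
    -- injections of initial segments into `c`
    have hinj : ∀ a : V, ∃ g : V → c.out, InjOn g (Iio a) := by
      intro a
      have h1 : #(Iio a) ≤ #c.out := by
        rw [Cardinal.mk_out]
        have h2 : #(Iio a) < kap G := mkIio a
        exact Order.lt_succ_iff.1 (lt_of_lt_of_eq h2 e)
      obtain ⟨g⟩ := h1
      have hne : Nonempty c.out := by
        rw [← Cardinal.mk_ne_zero_iff, Cardinal.mk_out]
        exact (Cardinal.aleph0_pos.trans_le hc0).ne'
      refine ⟨fun b => if h : b ∈ Iio a then g ⟨b, h⟩ else Classical.choice hne, ?_⟩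
      intro x hx y hy hxy
      simp only [hx, hy, dif_pos] at hxy
      exact congrArg Subtype.val (g.injective hxy)
    choose g hg using hinj
    let A : c.out → V → Set V := fun ξ b => {a | b < a ∧ g a b = ξ}
    have hex : ∀ b, ∃ ξ, A ξ b ∉ I := by
      intro b
      by_contra hcon
      push Not at hcon
      have h1 : (⋃ ξ, A ξ b) ∈ I := Iidx _ (by rwa [Cardinal.mk_out]) hcon
      apply Iuniv
      have h2 : (Iic b : Set V) ∈ I := Ismall _ (Iic_small b)
      have h3 := Iun {⋃ ξ, A ξ b, Iic b} (by rintro _ (rfl | rfl) <;> assumption) (by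
        refine lt_trans ?_ hal
        exact Cardinal.lt_aleph0_iff_set_finite.2 (by simp))
      refine Imono _ h3 _ ?_
      intro a _
      rcases le_or_gt a b with h | h
      · exact ⟨Iic b, Or.inr rfl, h⟩
      · exact ⟨_, Or.inl rfl, mem_iUnion.2 ⟨g a b, h, rfl⟩⟩
    choose ξ hξ using hex
    have hfib : ∀ η : c.out, Countable {b // ξ b = η} := by
      intro η
      refine Isat (fun b : {b // ξ b = η} => A η b.1) ?_ ?_
      · intro b b' hbb'
        rw [disjoint_left]
        rintro a ⟨h1, h2⟩ ⟨h3, h4⟩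
        apply hbb'
        apply Subtype.ext
        exact hg a h1 h3 (h2.trans h4.symm)
      · intro b
        have := hξ b.1
        rwa [b.2] at this
    have hle : #V ≤ c := by
      have h1 : ∀ η : c.out, ∃ k : V → ℕ, InjOn k {b | ξ b = η} :=
        fun η => Set.countable_iff_exists_injOn.1 (hfib η)
      choose k hk using h1
      have h2 : Function.Injective (fun b : V => ((ξ b, k (ξ b) b) : c.out × ℕ)) := by
        intro b b' h
        simp only [Prod.mk.injEq] at h
        obtain ⟨h1, h2⟩ := h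
        have h3 : k (ξ b') b = k (ξ b') b' := by
          rw [← h2, h1]
        exact hk _ h1 rfl h3
      have h3 := Cardinal.mk_le_of_injective h2
      rw [Cardinal.mk_prod] at h3
      simp only [Cardinal.lift_uzero, Cardinal.mk_out, Cardinal.mk_nat, Cardinal.lift_aleph0] at h3
      rwa [Cardinal.mul_aleph0_eq hc0] at h3
    rw [hcard, e] at hle
    exact absurd hle (not_le.2 (Order.lt_succ c))
  · intro 𝒜 hA hd
    have : Countable 𝒜 := by
      refine Isat (fun A : 𝒜 => A.1) ?_ (fun A => hA A.1 A.2)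
      intro A B hAB
      exact hd A.2 B.2 (fun h => hAB (Subtype.ext h))
    exact this

end

end Pool.Agent.K1H66.FB
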